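import Pool.Agent.Q22.ProdInter

/-! Every infinite group has a decreasing, not eventually constant sequence of subsets whose
product intersection set is `{1, 2}`. -/

namespace Pool.Agent.Results.MP_1adc52_al.OneTwo

open scoped Pointwise

/-- The product intersection set `H(A_q)` of a sequence of subsets of a group: the set of `h ≥ 1`
such that the `h`-fold product set of `⋂ A_q` is the intersection of the `h`-fold product sets of
the `A_q`. -/
def productIntersectionSet {G : Type*} [Group G] (A : ℕ → Set G) : Set ℕ :=
  {h : ℕ | 1 ≤ h ∧ (⋂ q, A q) ^ h = ⋂ q, A q ^ h}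

/-- Every infinite group (in particular every infinite torsion group) has a decreasing sequence of
subsets which is not eventually constant and whose product intersection set is `{1, 2}`; this set
is neither `{1}` nor `ℕ`. -/
theorem result :
    ∀ (G : Type*) [Group G] [Infinite G],
      ∃ A : ℕ → Set G, (∀ q, A (q + 1) ⊆ A q) ∧ {q : ℕ | A (q + 1) ≠ A q}.Infinite ∧
        productIntersectionSet A = {1, 2} := by
  intro G _ _
  obtain ⟨A, hA, hne, hH⟩ := Q22.ProdInter.main (G := G)
  refine ⟨A, fun q => hA (Nat.le_succ q), ?_, hH⟩
  rw [Set.infinite_iff_exists_gt]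
  intro N
  obtain ⟨q, hq, hqne⟩ := hne (N + 1)
  exact ⟨q, hqne, by omega⟩

end Pool.Agent.Results.MP_1adc52_al.OneTwo
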